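import Mathlib

/-!
# Project LS, task STG: the stages (combinatorial core)

An adaptation of `Pool.Agent.H620R2.GaugeX.X4` to numbers.
-/

set_option autoImplicit false

namespace Pool.Agent.W450.LSSTG

open Finset

/-- `y` is a code of the task `t` -/
def IsC (cf : ℕ × ℕ → ℕ → ℕ) (W : ℕ × ℕ → ℕ) (t : ℕ × ℕ) (y : ℕ) : Prop :=
  ∃ w : ℕ, w < W t ∧ y = cf t w

/-- codes determine the task and the witness -/
def CInj (cf : ℕ × ℕ → ℕ → ℕ) (W : ℕ × ℕ → ℕ) : Prop :=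
  ∀ (t t' : ℕ × ℕ) (w w' : ℕ), w < W t → w' < W t' → cf t w = cf t' w' → t = t' ∧ w = w'

theorem IsC.uniq {cf : ℕ × ℕ → ℕ → ℕ} {W : ℕ × ℕ → ℕ} (hi : CInj cf W) {t t' : ℕ × ℕ} {y : ℕ}
    (h : IsC cf W t y) (h' : IsC cf W t' y) : t = t' := by
  obtain ⟨w, hw, e⟩ := h
  obtain ⟨w', hw', e'⟩ := h'
  exact (hi t t' w w' hw hw' (e.symm.trans e')).1

/-- the numbers which are not changed any more -/
def Cs (cf : ℕ × ℕ → ℕ → ℕ) (W : ℕ × ℕ → ℕ) (key : ℕ × ℕ → ℕ) (k : ℕ) (F : Finset ℕ) : Set ℕ :=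
  {y | (∀ t, ¬ IsC cf W t y) ∨ y ∈ F ∨ ∃ t, IsC cf W t y ∧ key t < k}

/-- specification of one step of the construction -/
def Spec (cf : ℕ × ℕ → ℕ → ℕ) (W V : ℕ × ℕ → ℕ) (Q : ℕ × ℕ → (ℕ → Bool) → Prop)
    (key : ℕ × ℕ → ℕ) (k : ℕ) (s s' : (ℕ → Bool) × Finset ℕ) : Prop :=
  (∀ y ∈ Cs cf W key k s.2, s'.1 y = s.1 y) ∧ s.2 ⊆ s'.2 ∧
  ((∀ t, key t ≠ k) → s'.2 = s.2) ∧
  ∀ t, key t = k → s'.2.card ≤ s.2.card + V t ∧
    ∀ A : ℕ → Bool, (∀ y ∈ Cs cf W key (k + 1) s'.2, A y = s'.1 y) →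
      ∀ w : ℕ, w < W t → cf t w ∉ s'.2 → (s'.1 (cf t w) = true ↔ Q t A)

open Classical in
theorem exists_step (cf : ℕ × ℕ → ℕ → ℕ) (W V : ℕ × ℕ → ℕ) (hi : CInj cf W)
    (Q : ℕ × ℕ → (ℕ → Bool) → Prop)
    (hQ : ∀ (t : ℕ × ℕ) (A : ℕ → Bool), Q t A → ∃ U : Finset ℕ,
      U.card ≤ V t ∧ ∀ A' : ℕ → Bool, (∀ u ∈ U, A' u = A u) → Q t A')
    (key : ℕ × ℕ → ℕ) (hkey : Function.Injective key) (k : ℕ)
    (s : (ℕ → Bool) × Finset ℕ) : ∃ s', Spec cf W V Q key k s s' := by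
  by_cases hk : ∃ t, key t = k
  · obtain ⟨t, ht⟩ := hk
    obtain ⟨A, F⟩ := s
    have hfr : ∀ y ∈ Cs cf W key k F, IsC cf W t y → y ∈ F := by
      intro y hy hc
      rcases hy with h | h | ⟨t', h, h'⟩
      · exact absurd hc (h t)
      · exact h
      · rw [h.uniq hi hc] at h'
        omega
    by_cases hA : ∃ A' : ℕ → Bool, (∀ y ∈ Cs cf W key k F, A' y = A y) ∧ Q t A'
    · obtain ⟨A', hA1, hA2⟩ := hA
      obtain ⟨U, hU1, hU2⟩ := hQ _ _ hA2
      refine ⟨(fun y => if IsC cf W t y ∧ y ∉ F ∪ U then true else A' y, F ∪ U), ?_,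
        subset_union_left, fun h => absurd ht (h t), ?_⟩
      · intro y hy
        show (if IsC cf W t y ∧ y ∉ F ∪ U then true else A' y) = A y
        rw [if_neg, hA1 y hy]
        rintro ⟨h1, h2⟩
        exact h2 (mem_union_left _ (hfr y hy h1))
      · intro t' ht'
        have : t' = t := hkey (ht'.trans ht.symm)
        subst this
        refine ⟨(card_union_le _ _).trans (Nat.add_le_add_left hU1 _), ?_⟩
        intro A'' hA'' w hw hwF
        have hQA : Q t' A'' := by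
          apply hU2
          intro u hu
          have h1 : A'' u = if IsC cf W t' u ∧ u ∉ F ∪ U then true else A' u :=
            hA'' u (Or.inr (Or.inl (mem_union_right _ hu)))
          rw [h1, if_neg]
          rintro ⟨_, h2⟩
          exact h2 (mem_union_right _ hu)
        have hval : (if IsC cf W t' (cf t' w) ∧ cf t' w ∉ F ∪ U then true
            else A' (cf t' w)) = true := by
          rw [if_pos]
          exact ⟨⟨w, hw, rfl⟩, hwF⟩
        exact ⟨fun _ => hQA, fun _ => hval⟩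
    · refine ⟨(fun y => if IsC cf W t y ∧ y ∉ F then false else A y, F), ?_,
        Subset.refl _, fun _ => rfl, ?_⟩
      · intro y hy
        show (if IsC cf W t y ∧ y ∉ F then false else A y) = A y
        rw [if_neg]
        rintro ⟨h1, h2⟩
        exact h2 (hfr y hy h1)
      · intro t' ht'
        have : t' = t := hkey (ht'.trans ht.symm)
        subst this
        refine ⟨Nat.le_add_right _ _, ?_⟩
        intro A'' hA'' w hw hwF
        have hQA : ¬ Q t' A'' := by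
          intro hq
          apply hA
          refine ⟨A'', fun y hy => ?_, hq⟩
          have hy2 : y ∈ Cs cf W key (k + 1) F := by
            rcases hy with h | h | ⟨t2, h, h'⟩
            · exact Or.inl h
            · exact Or.inr (Or.inl h)
            · exact Or.inr (Or.inr ⟨t2, h, by omega⟩)
          have h1 : A'' y = if IsC cf W t' y ∧ y ∉ F then false else A y := hA'' y hy2
          rw [h1, if_neg]
          rintro ⟨h1, h2⟩
          exact h2 (hfr y hy h1)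
        have hval : (if IsC cf W t' (cf t' w) ∧ cf t' w ∉ F then false
            else A (cf t' w)) = false := by
          rw [if_pos]
          exact ⟨⟨w, hw, rfl⟩, hwF⟩
        constructor
        · intro h
          have h2 : (if IsC cf W t' (cf t' w) ∧ cf t' w ∉ F then false
            else A (cf t' w)) = true := h
          rw [hval] at h2
          exact absurd h2 (by simp)
        · intro h
          exact absurd h hQA
  · refine ⟨s, fun y _ => rfl, Subset.refl _, fun _ => rfl, fun t ht => absurd ⟨t, ht⟩ hk⟩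

theorem Cs_mono (cf : ℕ × ℕ → ℕ → ℕ) (W : ℕ × ℕ → ℕ) (key : ℕ × ℕ → ℕ) {k k' : ℕ}
    {F F' : Finset ℕ} (hk : k ≤ k') (hF : F ⊆ F') :
    Cs cf W key k F ⊆ Cs cf W key k' F' := by
  rintro y (h | h | ⟨t, h, h'⟩)
  · exact Or.inl h
  · exact Or.inr (Or.inl (hF h))
  · exact Or.inr (Or.inr ⟨t, h, by omega⟩)

open Classical in
/-- for one oracle `B` -/
theorem stage_one (cf : ℕ × ℕ → ℕ → ℕ) (W V N : ℕ × ℕ → ℕ) (hi : CInj cf W)
    (Q : ℕ × ℕ → (ℕ → Bool) → Prop)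
    (hQ : ∀ (t : ℕ × ℕ) (A : ℕ → Bool), Q t A → ∃ U : Finset ℕ,
      U.card ≤ V t ∧ ∀ A' : ℕ → Bool, (∀ u ∈ U, A' u = A u) → Q t A')
    (key : ℕ × ℕ → ℕ) (hkey : Function.Injective key)
    (hsum : ∀ (t : ℕ × ℕ) (S : Finset (ℕ × ℕ)), (∀ s ∈ S, key s ≤ key t) →
      ∑ s ∈ S, V s ≤ N t) (B : ℕ → Bool) :
    ∃ A : ℕ → Bool, (∀ y, (∀ t, ¬ IsC cf W t y) → A y = B y) ∧
      ∀ t : ℕ × ℕ, ((Finset.range (W t)).filter
        (fun w => ¬ (A (cf t w) = true ↔ Q t A))).card ≤ N t := by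
  have hstep := fun k s => exists_step cf W V hi Q hQ key hkey k s
  choose nx hnx using hstep
  obtain ⟨st, hst0, hstS⟩ : ∃ st : ℕ → (ℕ → Bool) × Finset ℕ, st 0 = (B, ∅) ∧
      ∀ k, st (k + 1) = nx k (st k) :=
    ⟨fun k => Nat.rec (motive := fun _ => (ℕ → Bool) × Finset ℕ) (B, ∅) nx k, rfl,
      fun k => rfl⟩
  have hspec : ∀ k, Spec cf W V Q key k (st k) (st (k + 1)) := fun k => by
    rw [hstS]
    exact hnx k (st k)
  have hFm : ∀ k j, k ≤ j → (st k).2 ⊆ (st j).2 := by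
    intro k j h
    induction j, h using Nat.le_induction with
    | base => exact Subset.refl _
    | succ j _ ih => exact ih.trans (hspec j).2.1
  have hAg : ∀ k j, k ≤ j → ∀ y ∈ Cs cf W key k (st k).2, (st j).1 y = (st k).1 y := by
    intro k j h
    induction j, h using Nat.le_induction with
    | base => exact fun y _ => rfl
    | succ j hj ih =>
      intro y hy
      rw [← ih y hy]
      exact (hspec j).1 y (Cs_mono cf W key hj (hFm k j hj) hy)
  have hcard : ∀ k, ∃ S : Finset (ℕ × ℕ), (∀ s ∈ S, key s < k) ∧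
      (st k).2.card ≤ ∑ s ∈ S, V s := by
    intro k
    induction k with
    | zero => exact ⟨∅, by simp, by simp [hst0]⟩
    | succ k ih =>
      obtain ⟨S, hS1, hS2⟩ := ih
      by_cases hk : ∃ t, key t = k
      · obtain ⟨t, ht⟩ := hk
        have hnot : t ∉ S := fun h => by
          have := hS1 t h
          omega
        refine ⟨insert t S, ?_, ?_⟩
        · intro s hs
          rcases mem_insert.1 hs with rfl | h
          · omega
          · have := hS1 s h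
            omega
        · rw [sum_insert hnot]
          have := ((hspec k).2.2.2 t ht).1
          omega
      · refine ⟨S, fun s hs => by have := hS1 s hs; omega, ?_⟩
        rw [(hspec k).2.2.1 fun t ht => hk ⟨t, ht⟩]
        exact hS2
  -- the limit oracle
  obtain ⟨A, hA1, hA2⟩ : ∃ A : ℕ → Bool, (∀ y, (∀ t, ¬ IsC cf W t y) → A y = B y) ∧
      ∀ t y, IsC cf W t y → A y = (st (key t + 1)).1 y := by
    refine ⟨fun y => if h : ∃ t, IsC cf W t y then (st (key h.choose + 1)).1 y else B y, ?_, ?_⟩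
    · intro y hy
      beta_reduce
      rw [dif_neg]
      rintro ⟨t, ht⟩
      exact hy t ht
    · intro t y hty
      have h : ∃ t, IsC cf W t y := ⟨t, hty⟩
      beta_reduce
      rw [dif_pos h, h.choose_spec.uniq hi hty]
  have hAk : ∀ k, ∀ y ∈ Cs cf W key k (st k).2, A y = (st k).1 y := by
    intro k y hy
    by_cases h : ∃ t, IsC cf W t y
    · obtain ⟨t, ht⟩ := h
      rw [hA2 t y ht]
      have h1 := hAg (key t + 1) (max (key t + 1) k) (le_max_left _ _) y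
        (Or.inr (Or.inr ⟨t, ht, Nat.lt_succ_self _⟩))
      have h2 := hAg k (max (key t + 1) k) (le_max_right _ _) y hy
      rw [← h1, h2]
    · have h' : ∀ t, ¬ IsC cf W t y := fun t ht => h ⟨t, ht⟩
      rw [hA1 y h']
      have h2 := hAg 0 k (Nat.zero_le _) y (Or.inl h')
      rw [h2, hst0]
  refine ⟨A, hA1, fun t => ?_⟩
  obtain ⟨S, hS1, hS2⟩ := hcard (key t + 1)
  have hF : (st (key t + 1)).2.card ≤ N t :=
    hS2.trans (hsum t S fun s hs => Nat.lt_succ_iff.1 (hS1 s hs))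
  refine le_trans ?_ hF
  have hsp := ((hspec (key t)).2.2.2 t rfl).2 A (fun y hy => hAk (key t + 1) y hy)
  refine Finset.card_le_card_of_injOn (cf t) ?_ ?_
  · intro w hw
    obtain ⟨hw1, hw2⟩ := Finset.mem_filter.1 (Finset.mem_coe.1 hw)
    rw [Finset.mem_range] at hw1
    rw [Finset.mem_coe]
    by_contra hn
    apply hw2
    have h1 := hsp w hw1 hn
    have h2 : A (cf t w) = (st (key t + 1)).1 (cf t w) :=
      hAk (key t + 1) _ (Or.inr (Or.inr ⟨t, ⟨_, hw1, rfl⟩, Nat.lt_succ_self _⟩))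
    rw [← h2] at h1
    exact h1
  · intro w hw w' hw' h
    have hw1 := Finset.mem_range.1 (Finset.mem_filter.1 (Finset.mem_coe.1 hw)).1
    have hw1' := Finset.mem_range.1 (Finset.mem_filter.1 (Finset.mem_coe.1 hw')).1
    exact (hi t t w w' hw1 hw1' h).2

/-! ### the arithmetic -/

/-- numbers for the answers (copy of `LS.cdm`) -/
def cdn (m : ℕ) (K : ℕ → ℕ) (e x w : ℕ) : ℕ := 2 ^ e * (2 * ((x + e + 2) ^ (m * K e) + w) + 1)

theorem pow_gap {m k b b' w : ℕ} (hm : 5 ≤ m) (hk : 1 ≤ k) (hb : 2 ≤ b) (hbb : b < b')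
    (hw : w < b ^ (3 * k)) : b ^ (m * k) + w < b' ^ (m * k) := by
  have hmk : 3 * k + 1 ≤ m * k := by nlinarith
  obtain ⟨n, hn⟩ : ∃ n, m * k = n + 1 := ⟨m * k - 1, by omega⟩
  rw [hn]
  have h1 : b ^ (3 * k) ≤ b ^ n := Nat.pow_le_pow_right (by omega) (by omega)
  have h2 : (b + 1) ^ (n + 1) ≤ b' ^ (n + 1) := Nat.pow_le_pow_left hbb _
  have h3 : b ^ n ≤ (b + 1) ^ n := Nat.pow_le_pow_left (by omega) _
  have h4 : b ^ (n + 1) + b ^ n ≤ (b + 1) ^ (n + 1) := by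
    rw [pow_succ, pow_succ]
    nlinarith
  omega

theorem two_adic {e e' a a' : ℕ} (h : 2 ^ e * (2 * a + 1) = 2 ^ e' * (2 * a' + 1)) :
    e = e' ∧ a = a' := by
  have key : ∀ {e e' a a' : ℕ}, e ≤ e' → 2 ^ e * (2 * a + 1) = 2 ^ e' * (2 * a' + 1) →
      e = e' ∧ a = a' := by
    intro e e' a a' hle h
    obtain ⟨j, rfl⟩ := Nat.exists_eq_add_of_le hle
    rw [pow_add, mul_assoc] at h
    have h2 := Nat.eq_of_mul_eq_mul_left (by positivity) h
    rcases Nat.eq_zero_or_pos j with rfl | hj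
    · simp at h2
      omega
    · obtain ⟨i, rfl⟩ : ∃ i, j = i + 1 := ⟨j - 1, by omega⟩
      exfalso
      have h3 : 2 ^ (i + 1) * (2 * a' + 1) = 2 * (2 ^ i * (2 * a' + 1)) := by ring
      omega
  rcases le_total e e' with hle | hle
  · exact key hle h
  · obtain ⟨h1, h2⟩ := key hle h.symm
    exact ⟨h1.symm, h2.symm⟩

theorem cdn_inj {m : ℕ} {K : ℕ → ℕ} (hm : 5 ≤ m) (hK : ∀ e, 1 ≤ K e) {e e' x x' w w' : ℕ}
    (hw : w < (x + e + 2) ^ (3 * K e)) (hw' : w' < (x' + e' + 2) ^ (3 * K e'))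
    (h : cdn m K e x w = cdn m K e' x' w') : e = e' ∧ x = x' ∧ w = w' := by
  unfold cdn at h
  obtain ⟨rfl, h2⟩ := two_adic h
  refine ⟨rfl, ?_⟩
  rcases lt_trichotomy x x' with hx | hx | hx
  · have := pow_gap hm (hK e) (by omega : 2 ≤ x + e + 2) (by omega : x + e + 2 < x' + e + 2) hw
    omega
  · subst hx
    omega
  · have := pow_gap hm (hK e) (by omega : 2 ≤ x' + e + 2) (by omega : x' + e + 2 < x + e + 2) hw'
    omega

theorem card_le_sq {S : Finset (ℕ × ℕ)} {v : ℕ} (h : ∀ s ∈ S, (s.2 + s.1 + 2) ^ 3 ≤ v) :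
    S.card ≤ v := by
  have hsub : S ⊆ Finset.range (Nat.sqrt v) ×ˢ Finset.range (Nat.sqrt v) := by
    intro s hs
    have h1 := h s hs
    have h2 : (s.2 + s.1 + 2) ^ 2 ≤ (s.2 + s.1 + 2) ^ 3 := Nat.pow_le_pow_right (by omega) (by omega)
    have h3 : s.2 + s.1 + 2 ≤ Nat.sqrt v := Nat.le_sqrt'.2 (h2.trans h1)
    rw [Finset.mem_product, Finset.mem_range, Finset.mem_range]
    omega
  refine (Finset.card_le_card hsub).trans ?_
  rw [Finset.card_product, Finset.card_range]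
  exact Nat.sqrt_le v

theorem key_mono {K : ℕ → ℕ} (hK : ∀ e, 3 ≤ K e) {s t : ℕ × ℕ}
    (h : Nat.pair ((s.2 + s.1 + 2) ^ K s.1) (Nat.pair s.1 s.2) ≤
      Nat.pair ((t.2 + t.1 + 2) ^ K t.1) (Nat.pair t.1 t.2)) :
    (s.2 + s.1 + 2) ^ K s.1 ≤ (t.2 + t.1 + 2) ^ K t.1 := by
  by_contra hn
  rw [not_le] at hn
  have hp : Nat.pair t.1 t.2 ≤ (t.2 + t.1 + 2) ^ K t.1 := by
    have h1 := Nat.pair_lt_max_add_one_sq t.1 t.2
    have h2 : (max t.1 t.2 + 1) ^ 2 ≤ (t.2 + t.1 + 2) ^ 2 :=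
      Nat.pow_le_pow_left (by omega) _
    have h3 : (t.2 + t.1 + 2) ^ 2 ≤ (t.2 + t.1 + 2) ^ K t.1 :=
      Nat.pow_le_pow_right (by omega) (by have := hK t.1; omega)
    omega
  have h1 := Nat.pair_lt_max_add_one_sq ((t.2 + t.1 + 2) ^ K t.1) (Nat.pair t.1 t.2)
  rw [max_eq_left hp] at h1
  have h2 := Nat.max_sq_add_min_le_pair ((s.2 + s.1 + 2) ^ K s.1) (Nat.pair s.1 s.2)
  have h3 : ((s.2 + s.1 + 2) ^ K s.1) ^ 2 ≤
      (max ((s.2 + s.1 + 2) ^ K s.1) (Nat.pair s.1 s.2)) ^ 2 :=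
    Nat.pow_le_pow_left (le_max_left _ _) _
  have h4 : ((t.2 + t.1 + 2) ^ K t.1 + 1) ^ 2 ≤ ((s.2 + s.1 + 2) ^ K s.1) ^ 2 :=
    Nat.pow_le_pow_left hn _
  omega

theorem stg (m K₀ : ℕ) (Q : ℕ → ℕ → (ℕ → Bool) → Prop) (hm : 5 ≤ m)
    (hQ : ∀ e, ∃ d : ℕ, ∀ (x : ℕ) (A : ℕ → Bool), Q e x A → ∃ U : Finset ℕ,
      U.card ≤ (x + 2) ^ d ∧ ∀ A' : ℕ → Bool, (∀ u ∈ U, A' u = A u) → Q e x A') :
    ∃ K : ℕ → ℕ, (∀ e, K₀ ≤ K e) ∧ ∀ O : ℕ → Bool, ∃ A : ℕ → Bool,
      (∀ y, (∀ e x w, w < (x + e + 2) ^ (3 * K e) → y ≠ cdn m K e x w) → A y = O y) ∧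
      ∀ e x, (Q e x A ↔ (x + e + 2) ^ (3 * K e) <
        2 * ((Finset.range ((x + e + 2) ^ (3 * K e))).filter
          (fun w => A (cdn m K e x w) = true)).card) := by
  classical
  choose d hd using hQ
  let K : ℕ → ℕ := fun e => max (max K₀ 3) (d e)
  have hK0 : ∀ e, K₀ ≤ K e := fun e => (le_max_left K₀ 3).trans (le_max_left _ _)
  have hK3 : ∀ e, 3 ≤ K e := fun e => (le_max_right K₀ 3).trans (le_max_left _ _)
  have hKd : ∀ e, d e ≤ K e := fun e => le_max_right _ _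
  refine ⟨K, hK0, fun O => ?_⟩
  let V : ℕ × ℕ → ℕ := fun t => (t.2 + t.1 + 2) ^ K t.1
  let W : ℕ × ℕ → ℕ := fun t => (t.2 + t.1 + 2) ^ (3 * K t.1)
  let cf : ℕ × ℕ → ℕ → ℕ := fun t w => cdn m K t.1 t.2 w
  let key : ℕ × ℕ → ℕ := fun t => Nat.pair (V t) (Nat.pair t.1 t.2)
  have hkey : Function.Injective key := by
    intro s t h
    have h1 := (Nat.pair_eq_pair.1 h).2
    obtain ⟨h2, h3⟩ := Nat.pair_eq_pair.1 h1
    exact Prod.ext h2 h3
  have hi : CInj cf W := by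
    rintro ⟨e, x⟩ ⟨e', x'⟩ w w' hw hw' h
    obtain ⟨h1, h2, h3⟩ := cdn_inj hm (fun e => by have := hK3 e; omega) hw hw' h
    exact ⟨Prod.ext h1 h2, h3⟩
  have hQ' : ∀ (t : ℕ × ℕ) (A : ℕ → Bool), Q t.1 t.2 A → ∃ U : Finset ℕ,
      U.card ≤ V t ∧ ∀ A' : ℕ → Bool, (∀ u ∈ U, A' u = A u) → Q t.1 t.2 A' := by
    rintro ⟨e, x⟩ A hA
    obtain ⟨U, hU1, hU2⟩ := hd e x A hA
    refine ⟨U, hU1.trans ?_, hU2⟩
    calc (x + 2) ^ d e ≤ (x + e + 2) ^ d e := Nat.pow_le_pow_left (by omega) _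
      _ ≤ (x + e + 2) ^ K e := Nat.pow_le_pow_right (by omega) (hKd e)
  have hsum : ∀ (t : ℕ × ℕ) (S : Finset (ℕ × ℕ)), (∀ s ∈ S, key s ≤ key t) →
      ∑ s ∈ S, V s ≤ V t * V t := by
    intro t S hS
    have hV : ∀ s ∈ S, V s ≤ V t := fun s hs => key_mono hK3 (hS s hs)
    have hc : S.card ≤ V t := by
      apply card_le_sq
      intro s hs
      refine le_trans ?_ (hV s hs)
      exact Nat.pow_le_pow_right (by omega) (hK3 _)
    calc ∑ s ∈ S, V s ≤ S.card • V t := Finset.sum_le_card_nsmul _ _ _ hV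
      _ = S.card * V t := by rw [smul_eq_mul]
      _ ≤ V t * V t := Nat.mul_le_mul_right _ hc
  obtain ⟨A, hA1, hA2⟩ := stage_one cf W V (fun t => V t * V t) hi (fun t A => Q t.1 t.2 A) hQ'
    key hkey hsum O
  refine ⟨A, ?_, ?_⟩
  · intro y hy
    apply hA1
    rintro ⟨e, x⟩ ⟨w, hw, h⟩
    exact hy e x w hw h
  · intro e x
    have hbad := hA2 (e, x)
    have hV8 : 8 ≤ V (e, x) := by
      calc 8 = 2 ^ 3 := by norm_num
        _ ≤ (x + e + 2) ^ 3 := Nat.pow_le_pow_left (by omega) _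
        _ ≤ (x + e + 2) ^ K e := Nat.pow_le_pow_right (by omega) (hK3 e)
    have hW : W (e, x) = V (e, x) * V (e, x) * V (e, x) := by
      show (x + e + 2) ^ (3 * K e) = (x + e + 2) ^ K e * (x + e + 2) ^ K e * (x + e + 2) ^ K e
      rw [mul_comm, pow_mul]
      ring
    have h2 : 2 * (V (e, x) * V (e, x)) < W (e, x) := by
      rw [hW]
      nlinarith [Nat.mul_le_mul hV8 hV8]
    set T := (Finset.range (W (e, x))).filter (fun w => A (cf (e, x) w) = true) with hT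
    set Fb := (Finset.range (W (e, x))).filter
      (fun w => ¬ (A (cf (e, x) w) = true ↔ Q e x A)) with hFb
    have hFb' : Fb.card ≤ V (e, x) * V (e, x) := hbad
    show Q e x A ↔ W (e, x) < 2 * T.card
    constructor
    · intro hq
      have hsub : Finset.range (W (e, x)) ⊆ T ∪ Fb := by
        intro w hw
        rw [Finset.mem_union]
        by_cases h : A (cf (e, x) w) = true
        · exact Or.inl (Finset.mem_filter.2 ⟨hw, h⟩)
        · refine Or.inr (Finset.mem_filter.2 ⟨hw, fun h' => h (h'.2 hq)⟩)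
      have h3 := (Finset.card_le_card hsub).trans (Finset.card_union_le _ _)
      rw [Finset.card_range] at h3
      omega
    · intro hlt
      by_contra hq
      have hsub : T ⊆ Fb := by
        intro w hw
        obtain ⟨h1, h2⟩ := Finset.mem_filter.1 hw
        exact Finset.mem_filter.2 ⟨h1, fun h' => hq (h'.1 h2)⟩
      have h3 := Finset.card_le_card hsub
      omega

end Pool.Agent.W450.LSSTG
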