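import Pool.Agent.W886.LS.Stm0
import Pool.Agent.W450.LS.STGcore

/-!
# Project LS, task STG: the stages
-/

set_option autoImplicit false

namespace Pool.Agent.W450.LSSTG

theorem task : Pool.Agent.W886.LS.S_STG := by
  intro m K₀ Q hm hQ
  exact stg m K₀ Q hm hQ

end Pool.Agent.W450.LSSTG
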